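import Pool.Agent.MP_1037db_co.Q.S4
import Pool.Agent.MP_1037db_co.Q.D.S1C0
import Pool.Agent.MP_1037db_co.Q.D.S2C0
import Pool.Agent.MP_1037db_co.Q.D.S2C1
import Pool.Agent.MP_1037db_co.Q.D.S13P1
import Pool.Agent.MP_1037db_co.Q.D.S13C0
import Pool.Agent.MP_1037db_co.Q.D.S13C1
import Pool.Agent.MP_1037db_co.Q.D.S13C2
import Pool.Agent.MP_1037db_co.Q.D.S13C3
import Pool.Agent.MP_1037db_co.Q.D.S13C4
import Pool.Agent.MP_1037db_co.Q.D.S13C5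
import Pool.Agent.MP_1037db_co.Q.D.S13C6
import Pool.Agent.MP_1037db_co.Q.D.S13C7
import Pool.Agent.MP_1037db_co.Q.D.S13C8
import Pool.Agent.MP_1037db_co.Q.D.S13C9
import Pool.Agent.MP_1037db_co.Q.D.S13C10
import Pool.Agent.MP_1037db_co.Q.D.S13C11
import Pool.Agent.MP_1037db_co.Q.D.S13C12
import Pool.Agent.MP_1037db_co.Q.D.S13C13
import Pool.Agent.MP_1037db_co.Q.D.S13C14
import Pool.Agent.MP_1037db_co.Q.D.S13C15
import Pool.Agent.MP_1037db_co.Q.D.S13C16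
import Pool.Agent.MP_1037db_co.Q.D.S13C17
import Pool.Agent.MP_1037db_co.Q.D.S13C18
import Pool.Agent.MP_1037db_co.Q.D.S13C19
import Pool.Agent.MP_1037db_co.Q.D.S13C20
import Pool.Agent.MP_1037db_co.Q.D.S13C21
import Pool.Agent.MP_1037db_co.Q.D.S13C22
import Pool.Agent.MP_1037db_co.Q.D.S13C23
import Pool.Agent.MP_1037db_co.Q.D.S13C24
import Pool.Agent.MP_1037db_co.Q.D.S13C25
import Pool.Agent.MP_1037db_co.Q.D.S13C26

namespace Pool.Agent.MP_1037db_co.Q.D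

open LP PT.Kd

set_option linter.defProp false
set_option maxRecDepth 100000

noncomputable section

theorem tab1 : tab FA FB D1 R1 5 = true := by decide +kernel

theorem seg1 : Seg ⟨FA, FB, FT, 63721, 10041, 39268, geo_ok⟩ 10041 9768 0 2200 := fun _ E β ht h hb h' => by
  letI : Geo := ⟨FA, FB, FT, 63721, 10041, 39268, geo_ok⟩
  have c : rd R1 35 = 9768 := by decide +kernel
  have g := tc_re (E := E) tab1 (ro := 10041) (C0 := 9768) (by decide +kernel) ht hb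
  have s : St (E.re tab1) β 9768 H1_0 (0 * 32) _ X1_0 _ _ _ _ _ _ :=
    g.start H1_0 9768 0 (by decide +kernel) h h'
  have s : St _ β _ _ (128 * 32) _ _ _ _ _ _ _ _ := s.ru g okX1_0 p1_0_0
  have s : St _ β _ _ (184 * 32) _ _ _ _ _ _ _ _ := s.ru g okX1_0 p1_1_0
  have s : St _ β _ _ (184 * 32) _ _ _ _ _ _ _ _ := s.rnz (i := 5888) g r1_1_10 ⟨by norm_num, c⟩
  have s : St _ β _ _ (184 * 32) _ _ _ _ _ _ _ _ := s.rnz (i := 5888) g r1_1_11 ⟨by norm_num, c⟩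
  have s : St _ β _ _ (184 * 32) _ _ _ _ _ _ _ _ := s.rnz (i := 5888) g r1_1_12 ⟨by norm_num, c⟩
  have s : St _ β _ _ (184 * 32) _ _ _ _ _ _ _ _ := s.rnz (i := 5888) g r1_2_0 ⟨by norm_num, c⟩
  have s : St _ β _ _ (184 * 32) _ _ _ _ _ _ _ _ := s.rnz (i := 5888) g r1_2_1 ⟨by norm_num, c⟩
  have s : St _ β _ _ (184 * 32) _ _ _ _ _ _ _ _ := s.rnz (i := 5888) g r1_2_2 ⟨by norm_num, c⟩
  have s : St _ β _ _ (184 * 32) _ _ _ _ _ _ _ _ := s.rnz (i := 5888) g r1_2_3 ⟨by norm_num, c⟩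
  have s : St _ β _ _ (184 * 32) _ _ _ _ _ _ _ _ := s.rnz (i := 5888) g r1_2_4 ⟨by norm_num, c⟩
  have s : St _ β _ _ (184 * 32) _ _ _ _ _ _ _ _ := s.rnz (i := 5888) g r1_2_5 ⟨by norm_num, c⟩
  have s : St _ β _ _ (184 * 32) _ _ _ _ _ _ _ _ := s.rnz (i := 5888) g r1_2_6 ⟨by norm_num, c⟩
  have s : St _ β _ _ (184 * 32) _ _ _ _ _ _ _ _ := s.rnz (i := 5888) g r1_3_0 ⟨by norm_num, c⟩
  have s : St _ β _ _ (184 * 32) _ _ _ _ _ _ _ _ := s.rnz (i := 5888) g r1_3_1 ⟨by norm_num, c⟩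
  have s : St _ β _ _ (184 * 32) _ _ _ _ _ _ _ _ := s.rnz (i := 5888) g r1_3_2 ⟨by norm_num, c⟩
  have s : St _ β _ _ (184 * 32) _ _ _ _ _ _ _ _ := s.rnz (i := 5888) g r1_3_3 ⟨by norm_num, c⟩
  have s : St _ β _ _ (184 * 32) _ _ _ _ _ _ _ _ := s.rnz (i := 5888) g r1_3_4 ⟨by norm_num, c⟩
  exact s.out g (by decide +kernel)

theorem tab2 : tab FA FB D2 R2 8 = true := by decide +kernel

theorem seg2 : Seg ⟨FA, FB, FT, 63721, 10041, 39268, geo_ok⟩ 10041 9768 2200 3000 := fun _ E β ht h hb h' => by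
  letI : Geo := ⟨FA, FB, FT, 63721, 10041, 39268, geo_ok⟩
  have c : rd R2 35 = 9768 := by decide +kernel
  have g := tc_re (E := E) tab2 (ro := 10041) (C0 := 9768) (by decide +kernel) ht hb
  have s : St (E.re tab2) β 9768 H2_0 (0 * 32) _ X2_0 _ _ _ _ _ _ :=
    g.start H2_0 9768 1 (by decide +kernel) h h'
  have s : St _ β _ _ (130 * 32) _ _ _ _ _ _ _ _ := s.ru g okX2_0 p2_0_0
  have s : St _ β _ _ (230 * 32) _ _ _ _ _ _ _ _ := s.ru g okX2_0 p2_1_0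
  have s : St _ β _ _ (309 * 32) _ _ _ _ _ _ _ _ := s.ru g okX2_0 p2_2_0
  have s : St _ β _ _ (370 * 32) _ _ _ _ _ _ _ _ := s.ru g okX2_0 p2_3_0
  have s : St _ β _ _ (400 * 32) _ _ _ _ _ _ _ _ := s.ru g okX2_0 p2_4_0
  have s : St _ β _ _ (409 * 32) _ _ _ _ _ _ _ _ := s.ru g okX2_0 p2_5_0
  have s : St _ β _ _ (409 * 32) _ _ _ _ _ _ _ _ := s.rnz (i := 13088) g r2_5_6 ⟨by norm_num, c⟩
  have s : St _ β _ _ (409 * 32) _ _ _ _ _ _ _ _ := s.rnz (i := 13088) g r2_5_7 ⟨by norm_num, c⟩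
  have s : St _ β _ _ (409 * 32) _ _ _ _ _ _ _ _ := s.rnz (i := 13088) g r2_5_8 ⟨by norm_num, c⟩
  have s : St _ β _ _ (409 * 32) _ _ _ _ _ _ _ _ := s.rnz (i := 13088) g r2_5_9 ⟨by norm_num, c⟩
  have s : St _ β _ _ (409 * 32) _ _ _ _ _ _ _ _ := s.rnz (i := 13088) g r2_5_10 ⟨by norm_num, c⟩
  have s : St _ β _ _ (409 * 32) _ _ _ _ _ _ _ _ := s.rnz (i := 13088) g r2_6_0 ⟨by norm_num, c⟩
  have s : St _ β _ _ (409 * 32) _ _ _ _ _ _ _ _ := s.rnz (i := 13088) g r2_6_1 ⟨by norm_num, c⟩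
  have s : St _ β _ _ (409 * 32) _ _ _ _ _ _ _ _ := s.rnz (i := 13088) g r2_6_2 ⟨by norm_num, c⟩
  have s : St _ β _ _ (409 * 32) _ _ _ _ _ _ _ _ := s.rnz (i := 13088) g r2_6_3 ⟨by norm_num, c⟩
  have s : St _ β _ _ (409 * 32) _ _ _ _ _ _ _ _ := s.rnz (i := 13088) g r2_6_4 ⟨by norm_num, c⟩
  have s : St _ β _ _ (409 * 32) _ _ _ _ _ _ _ _ := s.rnz (i := 13088) g r2_6_5 ⟨by norm_num, c⟩
  have s : St _ β _ _ (409 * 32) _ _ _ _ _ _ _ _ := s.rnz (i := 13088) g r2_6_6 ⟨by norm_num, c⟩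
  have s : St _ β _ _ (409 * 32) _ _ _ _ _ _ _ _ := s.rnz (i := 13088) g r2_7_0 ⟨by norm_num, c⟩
  have s : St _ β _ _ (409 * 32) _ _ _ _ _ _ _ _ := s.rnz (i := 13088) g r2_7_1 ⟨by norm_num, c⟩
  have s : St _ β _ _ (409 * 32) _ _ _ _ _ _ _ _ := s.rnz (i := 13088) g r2_7_2 ⟨by norm_num, c⟩
  have s : St _ β _ _ (409 * 32) _ _ _ _ _ _ _ _ := s.rnz (i := 13088) g r2_7_3 ⟨by norm_num, c⟩
  have s : St _ β _ _ (409 * 32) _ _ _ _ _ _ _ _ := s.rnz (i := 13088) g r2_7_4 ⟨by norm_num, c⟩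
  have s : St _ β _ _ (409 * 32) _ _ _ _ _ _ _ _ := s.rnz (i := 13088) g r2_7_5 ⟨by norm_num, c⟩
  have s : St _ β _ _ (409 * 32) _ _ _ _ _ _ _ _ := s.rnz (i := 13088) g r2_7_6 ⟨by norm_num, c⟩
  have s : St _ β _ _ (409 * 32) _ _ _ _ _ _ _ _ := s.rnz (i := 13088) g r2_8_0 ⟨by norm_num, c⟩
  have s : St _ β _ _ (409 * 32) _ _ _ _ _ _ _ _ := s.rnz (i := 13088) g r2_8_1 ⟨by norm_num, c⟩
  have s : St _ β _ _ (409 * 32) _ _ _ _ _ _ _ _ := s.rnz (i := 13088) g r2_8_2 ⟨by norm_num, c⟩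
  have s : St _ β _ _ (409 * 32) _ _ _ _ _ _ _ _ := s.rnz (i := 13088) g r2_8_3 ⟨by norm_num, c⟩
  have s : St _ β _ _ (409 * 32) _ _ _ _ _ _ _ _ := s.rnz (i := 13088) g r2_8_4 ⟨by norm_num, c⟩
  exact s.out g (by decide +kernel)

theorem tab13 : tab FA FB D13 R13 10 = true := by decide +kernel

theorem seg13 : Seg ⟨FA, FB, FT, 63721, 10041, 39268, geo_ok⟩ 10041 9768 3000 10042 := fun _ E β ht h hb h' => by
  letI : Geo := ⟨FA, FB, FT, 63721, 10041, 39268, geo_ok⟩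
  have c : rd R13 35 = 9768 := by decide +kernel
  have g := tc_re (E := E) tab13 (ro := 10041) (C0 := 9768) (by decide +kernel) ht hb
  have s : St (E.re tab13) β 9768 H13_0 (0 * 32) _ X13_0 _ _ _ _ _ _ :=
    g.start H13_0 9768 1 (by decide +kernel) h h'
  have s : St _ β _ _ (157 * 32) _ _ _ _ _ _ _ _ := s.ru g okX13_0 p13_0_0
  have s : St _ β _ _ (253 * 32) _ _ _ _ _ _ _ _ := s.ru g okX13_0 p13_1_0
  have s : St _ β _ _ (324 * 32) _ _ _ _ _ _ _ _ := s.ru g okX13_0 p13_2_0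
  have s : St _ β _ _ (388 * 32) _ _ _ _ _ _ _ _ := s.ru g okX13_0 p13_3_0
  have s : St _ β _ _ (450 * 32) _ _ _ _ _ _ _ _ := s.ru g okX13_0 p13_4_0
  have s : St _ β _ _ (509 * 32) _ _ _ _ _ _ _ _ := s.ru g okX13_0 p13_5_0
  have s : St _ β _ _ (565 * 32) _ _ _ _ _ _ _ _ := s.ru g okX13_0 p13_6_0
  have s : St _ β _ _ (621 * 32) _ _ _ _ _ _ _ _ := s.ru g okX13_0 p13_7_0
  have s : St _ β _ _ (667 * 32) _ _ _ _ _ _ _ _ := s.ru g okX13_0 p13_8_0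
  have s : St _ β _ _ (723 * 32) _ _ _ _ _ _ _ _ := s.ru g okX13_0 p13_9_0
  have s : St _ β _ _ (776 * 32) _ _ _ _ _ _ _ _ := s.ru g okX13_0 p13_10_0
  have s : St _ β _ _ (825 * 32) _ _ _ _ _ _ _ _ := s.ru g okX13_0 p13_11_0
  have s : St _ β _ _ (875 * 32) _ _ _ _ _ _ _ _ := s.ru g okX13_0 p13_12_0
  have s : St _ β _ _ (919 * 32) _ _ _ _ _ _ _ _ := s.ru g okX13_0 p13_13_0
  have s : St _ β _ _ (967 * 32) _ _ _ _ _ _ _ _ := s.ru g okX13_0 p13_14_0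
  have s : St _ β _ _ (999 * 32) _ _ _ _ _ _ _ _ := s.ru g okX13_0 p13_15_0
  have s : St _ β _ _ (1040 * 32) _ _ _ _ _ _ _ _ := s.ru g okX13_0 p13_16_0
  have s : St _ β _ _ (1073 * 32) _ _ _ _ _ _ _ _ := s.ru g okX13_0 p13_17_0
  have s : St _ β _ _ (1108 * 32) _ _ _ _ _ _ _ _ := s.ru g okX13_0 p13_18_0
  have s : St _ β _ _ (1134 * 32) _ _ _ _ _ _ _ _ := s.ru g okX13_0 p13_19_0
  have s : St _ β _ _ (1159 * 32) _ _ _ _ _ _ _ _ := s.ru g okX13_0 p13_20_0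
  have s : St _ β _ _ (1182 * 32) _ _ _ _ _ _ _ _ := s.ru g okX13_0 p13_21_0
  have s : St _ β _ _ (1204 * 32) _ _ _ _ _ _ _ _ := s.ru g okX13_0 p13_22_0
  have s : St _ β _ _ (1228 * 32) _ _ _ _ _ _ _ _ := s.ru g okX13_0 p13_23_0
  have s : St _ β _ _ (1251 * 32) _ _ _ _ _ _ _ _ := s.ru g okX13_0 p13_24_0
  have s : St _ β _ _ (1271 * 32) _ _ _ _ _ _ _ _ := s.ru g okX13_0 p13_25_0
  have s : St _ β _ _ (1287 * 32) _ _ _ _ _ _ _ _ := s.ru g okX13_0 p13_26_0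
  have s : St _ β _ _ (1293 * 32) _ _ _ _ _ _ _ _ := s.ru g okX13_0 p13_27_0
  have s : St _ β _ _ (1293 * 32) _ _ _ _ _ _ _ _ := s.rnz (i := 41376) g r13_27_4 ⟨by norm_num, c⟩
  have s : St _ β _ _ (1293 * 32) _ _ _ _ _ _ _ _ := s.rnz (i := 41376) g r13_27_5 ⟨by norm_num, c⟩
  have s : St _ β _ _ (1293 * 32) _ _ _ _ _ _ _ _ := s.rnz (i := 41376) g r13_27_6 ⟨by norm_num, c⟩
  have s : St _ β _ _ (1293 * 32) _ _ _ _ _ _ _ _ := s.rnz (i := 41376) g r13_27_7 ⟨by norm_num, c⟩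
  have s : St _ β _ _ (1293 * 32) _ _ _ _ _ _ _ _ := s.rnz (i := 41376) g r13_28_0 ⟨by norm_num, c⟩
  have s : St _ β _ _ (1293 * 32) _ _ _ _ _ _ _ _ := s.rnz (i := 41376) g r13_28_1 ⟨by norm_num, c⟩
  have s : St _ β _ _ (1293 * 32) _ _ _ _ _ _ _ _ := s.rnz (i := 41376) g r13_28_2 ⟨by norm_num, c⟩
  have s : St _ β _ _ (1293 * 32) _ _ _ _ _ _ _ _ := s.rnz (i := 41376) g r13_28_3 ⟨by norm_num, c⟩
  have s : St _ β _ _ (1293 * 32) _ _ _ _ _ _ _ _ := s.rnz (i := 41376) g r13_28_4 ⟨by norm_num, c⟩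
  have s : St _ β _ _ (1293 * 32) _ _ _ _ _ _ _ _ := s.rnz (i := 41376) g r13_28_5 ⟨by norm_num, c⟩
  have s : St _ β _ _ (1293 * 32) _ _ _ _ _ _ _ _ := s.rnz (i := 41376) g r13_28_6 ⟨by norm_num, c⟩
  have s : St _ β _ _ (1293 * 32) _ _ _ _ _ _ _ _ := s.rnz (i := 41376) g r13_29_0 ⟨by norm_num, c⟩
  have s : St _ β _ _ (1293 * 32) _ _ _ _ _ _ _ _ := s.rnz (i := 41376) g r13_29_1 ⟨by norm_num, c⟩
  have s : St _ β _ _ (1293 * 32) _ _ _ _ _ _ _ _ := s.rnz (i := 41376) g r13_29_2 ⟨by norm_num, c⟩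
  have s : St _ β _ _ (1293 * 32) _ _ _ _ _ _ _ _ := s.rnz (i := 41376) g r13_29_3 ⟨by norm_num, c⟩
  have s : St _ β _ _ (1293 * 32) _ _ _ _ _ _ _ _ := s.rnz (i := 41376) g r13_29_4 ⟨by norm_num, c⟩
  have s : St _ β _ _ (1293 * 32) _ _ _ _ _ _ _ _ := s.rnz (i := 41376) g r13_29_5 ⟨by norm_num, c⟩
  have s : St _ β _ _ (1293 * 32) _ _ _ _ _ _ _ _ := s.rnz (i := 41376) g r13_30_0 ⟨by norm_num, c⟩
  have s : St _ β _ _ (1293 * 32) _ _ _ _ _ _ _ _ := s.rnz (i := 41376) g r13_30_1 ⟨by norm_num, c⟩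
  have s : St _ β _ _ (1293 * 32) _ _ _ _ _ _ _ _ := s.rnz (i := 41376) g r13_30_2 ⟨by norm_num, c⟩
  have s : St _ β _ _ (1293 * 32) _ _ _ _ _ _ _ _ := s.rnz (i := 41376) g r13_30_3 ⟨by norm_num, c⟩
  have s : St _ β _ _ (1293 * 32) _ _ _ _ _ _ _ _ := s.rnz (i := 41376) g r13_30_4 ⟨by norm_num, c⟩
  have s : St _ β _ _ (1293 * 32) _ _ _ _ _ _ _ _ := s.rnz (i := 41376) g r13_30_5 ⟨by norm_num, c⟩
  have s : St _ β _ _ (1293 * 32) _ _ _ _ _ _ _ _ := s.rnz (i := 41376) g r13_30_6 ⟨by norm_num, c⟩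
  have s : St _ β _ _ (1293 * 32) _ _ _ _ _ _ _ _ := s.rnz (i := 41376) g r13_31_0 ⟨by norm_num, c⟩
  have s : St _ β _ _ (1293 * 32) _ _ _ _ _ _ _ _ := s.rnz (i := 41376) g r13_31_1 ⟨by norm_num, c⟩
  have s : St _ β _ _ (1293 * 32) _ _ _ _ _ _ _ _ := s.rnz (i := 41376) g r13_31_2 ⟨by norm_num, c⟩
  have s : St _ β _ _ (1293 * 32) _ _ _ _ _ _ _ _ := s.rnz (i := 41376) g r13_31_3 ⟨by norm_num, c⟩
  have s : St _ β _ _ (1293 * 32) _ _ _ _ _ _ _ _ := s.rnz (i := 41376) g r13_31_4 ⟨by norm_num, c⟩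
  have s : St _ β _ _ (1293 * 32) _ _ _ _ _ _ _ _ := s.rnz (i := 41376) g r13_31_5 ⟨by norm_num, c⟩
  have s : St _ β _ _ (1293 * 32) _ _ _ _ _ _ _ _ := s.rnz (i := 41376) g r13_32_0 ⟨by norm_num, c⟩
  have s : St _ β _ _ (1293 * 32) _ _ _ _ _ _ _ _ := s.rnz (i := 41376) g r13_32_1 ⟨by norm_num, c⟩
  have s : St _ β _ _ (1293 * 32) _ _ _ _ _ _ _ _ := s.rnz (i := 41376) g r13_32_2 ⟨by norm_num, c⟩
  have s : St _ β _ _ (1293 * 32) _ _ _ _ _ _ _ _ := s.rnz (i := 41376) g r13_32_3 ⟨by norm_num, c⟩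
  have s : St _ β _ _ (1293 * 32) _ _ _ _ _ _ _ _ := s.rnz (i := 41376) g r13_32_4 ⟨by norm_num, c⟩
  have s : St _ β _ _ (1293 * 32) _ _ _ _ _ _ _ _ := s.rnz (i := 41376) g r13_32_5 ⟨by norm_num, c⟩
  have s : St _ β _ _ (1293 * 32) _ _ _ _ _ _ _ _ := s.rnz (i := 41376) g r13_32_6 ⟨by norm_num, c⟩
  have s : St _ β _ _ (1398 * 32) _ _ _ _ _ _ _ _ := s.ru g okX13_45 p13_33_0
  have s : St _ β _ _ (1463 * 32) _ _ _ _ _ _ _ _ := s.ru g okX13_45 p13_34_0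
  have s : St _ β _ _ (1515 * 32) _ _ _ _ _ _ _ _ := s.ru g okX13_45 p13_35_0
  have s : St _ β _ _ (1561 * 32) _ _ _ _ _ _ _ _ := s.ru g okX13_45 p13_36_0
  have s : St _ β _ _ (1603 * 32) _ _ _ _ _ _ _ _ := s.ru g okX13_45 p13_37_0
  have s : St _ β _ _ (1645 * 32) _ _ _ _ _ _ _ _ := s.ru g okX13_45 p13_38_0
  have s : St _ β _ _ (1689 * 32) _ _ _ _ _ _ _ _ := s.ru g okX13_45 p13_39_0
  have s : St _ β _ _ (1732 * 32) _ _ _ _ _ _ _ _ := s.ru g okX13_45 p13_40_0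
  have s : St _ β _ _ (1773 * 32) _ _ _ _ _ _ _ _ := s.ru g okX13_45 p13_41_0
  have s : St _ β _ _ (1799 * 32) _ _ _ _ _ _ _ _ := s.ru g okX13_45 p13_42_0
  have s : St _ β _ _ (1828 * 32) _ _ _ _ _ _ _ _ := s.ru g okX13_45 p13_43_0
  have s : St _ β _ _ (1856 * 32) _ _ _ _ _ _ _ _ := s.ru g okX13_45 p13_44_0
  have s : St _ β _ _ (1882 * 32) _ _ _ _ _ _ _ _ := s.ru g okX13_45 p13_45_0
  have s : St _ β _ _ (1911 * 32) _ _ _ _ _ _ _ _ := s.ru g okX13_45 p13_46_0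
  have s : St _ β _ _ (1915 * 32) _ _ _ _ _ _ _ _ := s.ru g okX13_45 p13_47_0
  have s : St _ β _ _ (1915 * 32) _ _ _ _ _ _ _ _ := s.rnz (i := 61280) g r13_47_2 ⟨by norm_num, c⟩
  have s : St _ β _ _ (1915 * 32) _ _ _ _ _ _ _ _ := s.rnz (i := 61280) g r13_47_3 ⟨by norm_num, c⟩
  have s : St _ β _ _ (1915 * 32) _ _ _ _ _ _ _ _ := s.rnz (i := 61280) g r13_47_4 ⟨by norm_num, c⟩
  have s : St _ β _ _ (1915 * 32) _ _ _ _ _ _ _ _ := s.rnz (i := 61280) g r13_47_5 ⟨by norm_num, c⟩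
  have s : St _ β _ _ (1915 * 32) _ _ _ _ _ _ _ _ := s.rnz (i := 61280) g r13_47_6 ⟨by norm_num, c⟩
  have s : St _ β _ _ (1915 * 32) _ _ _ _ _ _ _ _ := s.rnz (i := 61280) g r13_47_7 ⟨by norm_num, c⟩
  have s : St _ β _ _ (1915 * 32) _ _ _ _ _ _ _ _ := s.rnz (i := 61280) g r13_48_0 ⟨by norm_num, c⟩
  have s : St _ β _ _ (1915 * 32) _ _ _ _ _ _ _ _ := s.rnz (i := 61280) g r13_48_1 ⟨by norm_num, c⟩
  have s : St _ β _ _ (1915 * 32) _ _ _ _ _ _ _ _ := s.rnz (i := 61280) g r13_48_2 ⟨by norm_num, c⟩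
  have s : St _ β _ _ (1915 * 32) _ _ _ _ _ _ _ _ := s.rnz (i := 61280) g r13_48_3 ⟨by norm_num, c⟩
  have s : St _ β _ _ (1915 * 32) _ _ _ _ _ _ _ _ := s.rnz (i := 61280) g r13_48_4 ⟨by norm_num, c⟩
  have s : St _ β _ _ (1915 * 32) _ _ _ _ _ _ _ _ := s.rnz (i := 61280) g r13_48_5 ⟨by norm_num, c⟩
  have s : St _ β _ _ (1915 * 32) _ _ _ _ _ _ _ _ := s.rnz (i := 61280) g r13_49_0 ⟨by norm_num, c⟩
  have s : St _ β _ _ (1915 * 32) _ _ _ _ _ _ _ _ := s.rnz (i := 61280) g r13_49_1 ⟨by norm_num, c⟩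
  have s : St _ β _ _ (1915 * 32) _ _ _ _ _ _ _ _ := s.rnz (i := 61280) g r13_49_2 ⟨by norm_num, c⟩
  have s : St _ β _ _ (1915 * 32) _ _ _ _ _ _ _ _ := s.rnz (i := 61280) g r13_49_3 ⟨by norm_num, c⟩
  have s : St _ β _ _ (1915 * 32) _ _ _ _ _ _ _ _ := s.rnz (i := 61280) g r13_49_4 ⟨by norm_num, c⟩
  have s : St _ β _ _ (1915 * 32) _ _ _ _ _ _ _ _ := s.rnz (i := 61280) g r13_49_5 ⟨by norm_num, c⟩
  have s : St _ β _ _ (1915 * 32) _ _ _ _ _ _ _ _ := s.rnz (i := 61280) g r13_49_6 ⟨by norm_num, c⟩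
  have s : St _ β _ _ (1915 * 32) _ _ _ _ _ _ _ _ := s.rnz (i := 61280) g r13_50_0 ⟨by norm_num, c⟩
  have s : St _ β _ _ (1915 * 32) _ _ _ _ _ _ _ _ := s.rnz (i := 61280) g r13_50_1 ⟨by norm_num, c⟩
  have s : St _ β _ _ (1980 * 32) _ _ _ _ _ _ _ _ := s.ru g okX13_74 p13_50_2
  have s : St _ β _ _ (2041 * 32) _ _ _ _ _ _ _ _ := s.ru g okX13_74 p13_51_0
  have s : St _ β _ _ (2085 * 32) _ _ _ _ _ _ _ _ := s.ru g okX13_74 p13_52_0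
  have s : St _ β _ _ (2127 * 32) _ _ _ _ _ _ _ _ := s.ru g okX13_74 p13_53_0
  have s : St _ β _ _ (2165 * 32) _ _ _ _ _ _ _ _ := s.ru g okX13_74 p13_54_0
  have s : St _ β _ _ (2196 * 32) _ _ _ _ _ _ _ _ := s.ru g okX13_74 p13_55_0
  have s : St _ β _ _ (2231 * 32) _ _ _ _ _ _ _ _ := s.ru g okX13_74 p13_56_0
  have s : St _ β _ _ (2267 * 32) _ _ _ _ _ _ _ _ := s.ru g okX13_74 p13_57_0
  have s : St _ β _ _ (2300 * 32) _ _ _ _ _ _ _ _ := s.ru g okX13_74 p13_58_0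
  have s : St _ β _ _ (2332 * 32) _ _ _ _ _ _ _ _ := s.ru g okX13_74 p13_59_0
  have s : St _ β _ _ (2356 * 32) _ _ _ _ _ _ _ _ := s.ru g okX13_74 p13_60_0
  have s : St _ β _ _ (2384 * 32) _ _ _ _ _ _ _ _ := s.ru g okX13_74 p13_61_0
  have s : St _ β _ _ (2405 * 32) _ _ _ _ _ _ _ _ := s.ru g okX13_74 p13_62_0
  have s : St _ β _ _ (2430 * 32) _ _ _ _ _ _ _ _ := s.ru g okX13_74 p13_63_0
  have s : St _ β _ _ (2455 * 32) _ _ _ _ _ _ _ _ := s.ru g okX13_74 p13_64_0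
  have s : St _ β _ _ (2464 * 32) _ _ _ _ _ _ _ _ := s.ru g okX13_74 p13_65_0
  have s : St _ β _ _ (2464 * 32) _ _ _ _ _ _ _ _ := s.rnz (i := 78848) g r13_65_4 ⟨by norm_num, c⟩
  have s : St _ β _ _ (2464 * 32) _ _ _ _ _ _ _ _ := s.rnz (i := 78848) g r13_65_5 ⟨by norm_num, c⟩
  have s : St _ β _ _ (2464 * 32) _ _ _ _ _ _ _ _ := s.rnz (i := 78848) g r13_65_6 ⟨by norm_num, c⟩
  have s : St _ β _ _ (2464 * 32) _ _ _ _ _ _ _ _ := s.rnz (i := 78848) g r13_65_7 ⟨by norm_num, c⟩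
  have s : St _ β _ _ (2464 * 32) _ _ _ _ _ _ _ _ := s.rnz (i := 78848) g r13_66_0 ⟨by norm_num, c⟩
  have s : St _ β _ _ (2464 * 32) _ _ _ _ _ _ _ _ := s.rnz (i := 78848) g r13_66_1 ⟨by norm_num, c⟩
  have s : St _ β _ _ (2464 * 32) _ _ _ _ _ _ _ _ := s.rnz (i := 78848) g r13_66_2 ⟨by norm_num, c⟩
  have s : St _ β _ _ (2464 * 32) _ _ _ _ _ _ _ _ := s.rnz (i := 78848) g r13_66_3 ⟨by norm_num, c⟩
  have s : St _ β _ _ (2464 * 32) _ _ _ _ _ _ _ _ := s.rnz (i := 78848) g r13_66_4 ⟨by norm_num, c⟩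
  have s : St _ β _ _ (2464 * 32) _ _ _ _ _ _ _ _ := s.rnz (i := 78848) g r13_66_5 ⟨by norm_num, c⟩
  have s : St _ β _ _ (2464 * 32) _ _ _ _ _ _ _ _ := s.rnz (i := 78848) g r13_66_6 ⟨by norm_num, c⟩
  have s : St _ β _ _ (2464 * 32) _ _ _ _ _ _ _ _ := s.rnz (i := 78848) g r13_67_0 ⟨by norm_num, c⟩
  have s : St _ β _ _ (2464 * 32) _ _ _ _ _ _ _ _ := s.rnz (i := 78848) g r13_67_1 ⟨by norm_num, c⟩
  have s : St _ β _ _ (2464 * 32) _ _ _ _ _ _ _ _ := s.rnz (i := 78848) g r13_67_2 ⟨by norm_num, c⟩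
  have s : St _ β _ _ (2464 * 32) _ _ _ _ _ _ _ _ := s.rnz (i := 78848) g r13_67_3 ⟨by norm_num, c⟩
  have s : St _ β _ _ (2464 * 32) _ _ _ _ _ _ _ _ := s.rnz (i := 78848) g r13_67_4 ⟨by norm_num, c⟩
  have s : St _ β _ _ (2464 * 32) _ _ _ _ _ _ _ _ := s.rnz (i := 78848) g r13_67_5 ⟨by norm_num, c⟩
  have s : St _ β _ _ (2547 * 32) _ _ _ _ _ _ _ _ := s.ru g okX13_99 p13_68_0
  have s : St _ β _ _ (2594 * 32) _ _ _ _ _ _ _ _ := s.ru g okX13_99 p13_69_0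
  have s : St _ β _ _ (2641 * 32) _ _ _ _ _ _ _ _ := s.ru g okX13_99 p13_70_0
  have s : St _ β _ _ (2681 * 32) _ _ _ _ _ _ _ _ := s.ru g okX13_99 p13_71_0
  have s : St _ β _ _ (2720 * 32) _ _ _ _ _ _ _ _ := s.ru g okX13_99 p13_72_0
  have s : St _ β _ _ (2755 * 32) _ _ _ _ _ _ _ _ := s.ru g okX13_99 p13_73_0
  have s : St _ β _ _ (2783 * 32) _ _ _ _ _ _ _ _ := s.ru g okX13_99 p13_74_0
  have s : St _ β _ _ (2809 * 32) _ _ _ _ _ _ _ _ := s.ru g okX13_99 p13_75_0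
  have s : St _ β _ _ (2840 * 32) _ _ _ _ _ _ _ _ := s.ru g okX13_99 p13_76_0
  have s : St _ β _ _ (2843 * 32) _ _ _ _ _ _ _ _ := s.ru g okX13_99 p13_77_0
  have s : St _ β _ _ (2843 * 32) _ _ _ _ _ _ _ _ := s.rnz (i := 90976) g r13_77_2 ⟨by norm_num, c⟩
  have s : St _ β _ _ (2843 * 32) _ _ _ _ _ _ _ _ := s.rnz (i := 90976) g r13_77_3 ⟨by norm_num, c⟩
  have s : St _ β _ _ (2843 * 32) _ _ _ _ _ _ _ _ := s.rnz (i := 90976) g r13_77_4 ⟨by norm_num, c⟩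
  have s : St _ β _ _ (2843 * 32) _ _ _ _ _ _ _ _ := s.rnz (i := 90976) g r13_77_5 ⟨by norm_num, c⟩
  have s : St _ β _ _ (2843 * 32) _ _ _ _ _ _ _ _ := s.rnz (i := 90976) g r13_77_6 ⟨by norm_num, c⟩
  have s : St _ β _ _ (2843 * 32) _ _ _ _ _ _ _ _ := s.rnz (i := 90976) g r13_77_7 ⟨by norm_num, c⟩
  have s : St _ β _ _ (2843 * 32) _ _ _ _ _ _ _ _ := s.rnz (i := 90976) g r13_77_8 ⟨by norm_num, c⟩
  have s : St _ β _ _ (2843 * 32) _ _ _ _ _ _ _ _ := s.rnz (i := 90976) g r13_78_0 ⟨by norm_num, c⟩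
  have s : St _ β _ _ (2843 * 32) _ _ _ _ _ _ _ _ := s.rnz (i := 90976) g r13_78_1 ⟨by norm_num, c⟩
  have s : St _ β _ _ (2843 * 32) _ _ _ _ _ _ _ _ := s.rnz (i := 90976) g r13_78_2 ⟨by norm_num, c⟩
  have s : St _ β _ _ (2843 * 32) _ _ _ _ _ _ _ _ := s.rnz (i := 90976) g r13_78_3 ⟨by norm_num, c⟩
  have s : St _ β _ _ (2875 * 32) _ _ _ _ _ _ _ _ := s.ru g okX13_114 p13_78_4
  have s : St _ β _ _ (2937 * 32) _ _ _ _ _ _ _ _ := s.ru g okX13_114 p13_79_0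
  have s : St _ β _ _ (2988 * 32) _ _ _ _ _ _ _ _ := s.ru g okX13_114 p13_80_0
  have s : St _ β _ _ (3031 * 32) _ _ _ _ _ _ _ _ := s.ru g okX13_114 p13_81_0
  have s : St _ β _ _ (3068 * 32) _ _ _ _ _ _ _ _ := s.ru g okX13_114 p13_82_0
  have s : St _ β _ _ (3097 * 32) _ _ _ _ _ _ _ _ := s.ru g okX13_114 p13_83_0
  have s : St _ β _ _ (3129 * 32) _ _ _ _ _ _ _ _ := s.ru g okX13_114 p13_84_0
  have s : St _ β _ _ (3150 * 32) _ _ _ _ _ _ _ _ := s.ru g okX13_114 p13_85_0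
  have s : St _ β _ _ (3150 * 32) _ _ _ _ _ _ _ _ := s.rnz (i := 100800) g r13_85_11 ⟨by norm_num, c⟩
  have s : St _ β _ _ (3150 * 32) _ _ _ _ _ _ _ _ := s.rnz (i := 100800) g r13_86_0 ⟨by norm_num, c⟩
  have s : St _ β _ _ (3150 * 32) _ _ _ _ _ _ _ _ := s.rnz (i := 100800) g r13_86_1 ⟨by norm_num, c⟩
  have s : St _ β _ _ (3150 * 32) _ _ _ _ _ _ _ _ := s.rnz (i := 100800) g r13_86_2 ⟨by norm_num, c⟩
  have s : St _ β _ _ (3150 * 32) _ _ _ _ _ _ _ _ := s.rnz (i := 100800) g r13_86_3 ⟨by norm_num, c⟩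
  have s : St _ β _ _ (3150 * 32) _ _ _ _ _ _ _ _ := s.rnz (i := 100800) g r13_86_4 ⟨by norm_num, c⟩
  have s : St _ β _ _ (3150 * 32) _ _ _ _ _ _ _ _ := s.rnz (i := 100800) g r13_86_5 ⟨by norm_num, c⟩
  have s : St _ β _ _ (3150 * 32) _ _ _ _ _ _ _ _ := s.rnz (i := 100800) g r13_87_0 ⟨by norm_num, c⟩
  have s : St _ β _ _ (3150 * 32) _ _ _ _ _ _ _ _ := s.rnz (i := 100800) g r13_87_1 ⟨by norm_num, c⟩
  have s : St _ β _ _ (3150 * 32) _ _ _ _ _ _ _ _ := s.rnz (i := 100800) g r13_87_2 ⟨by norm_num, c⟩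
  have s : St _ β _ _ (3150 * 32) _ _ _ _ _ _ _ _ := s.rnz (i := 100800) g r13_87_3 ⟨by norm_num, c⟩
  have s : St _ β _ _ (3186 * 32) _ _ _ _ _ _ _ _ := s.ru g okX13_131 p13_87_4
  have s : St _ β _ _ (3257 * 32) _ _ _ _ _ _ _ _ := s.ru g okX13_131 p13_88_0
  have s : St _ β _ _ (3317 * 32) _ _ _ _ _ _ _ _ := s.ru g okX13_131 p13_89_0
  have s : St _ β _ _ (3356 * 32) _ _ _ _ _ _ _ _ := s.ru g okX13_131 p13_90_0
  have s : St _ β _ _ (3393 * 32) _ _ _ _ _ _ _ _ := s.ru g okX13_131 p13_91_0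
  have s : St _ β _ _ (3421 * 32) _ _ _ _ _ _ _ _ := s.ru g okX13_131 p13_92_0
  have s : St _ β _ _ (3450 * 32) _ _ _ _ _ _ _ _ := s.ru g okX13_131 p13_93_0
  have s : St _ β _ _ (3450 * 32) _ _ _ _ _ _ _ _ := s.rnz (i := 110400) g r13_93_11 ⟨by norm_num, c⟩
  have s : St _ β _ _ (3450 * 32) _ _ _ _ _ _ _ _ := s.rnz (i := 110400) g r13_93_12 ⟨by norm_num, c⟩
  have s : St _ β _ _ (3450 * 32) _ _ _ _ _ _ _ _ := s.rnz (i := 110400) g r13_94_0 ⟨by norm_num, c⟩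
  have s : St _ β _ _ (3450 * 32) _ _ _ _ _ _ _ _ := s.rnz (i := 110400) g r13_94_1 ⟨by norm_num, c⟩
  have s : St _ β _ _ (3450 * 32) _ _ _ _ _ _ _ _ := s.rnz (i := 110400) g r13_94_2 ⟨by norm_num, c⟩
  have s : St _ β _ _ (3450 * 32) _ _ _ _ _ _ _ _ := s.rnz (i := 110400) g r13_94_3 ⟨by norm_num, c⟩
  have s : St _ β _ _ (3450 * 32) _ _ _ _ _ _ _ _ := s.rnz (i := 110400) g r13_94_4 ⟨by norm_num, c⟩
  have s : St _ β _ _ (3450 * 32) _ _ _ _ _ _ _ _ := s.rnz (i := 110400) g r13_94_5 ⟨by norm_num, c⟩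
  have s : St _ β _ _ (3450 * 32) _ _ _ _ _ _ _ _ := s.rnz (i := 110400) g r13_94_6 ⟨by norm_num, c⟩
  have s : St _ β _ _ (3450 * 32) _ _ _ _ _ _ _ _ := s.rnz (i := 110400) g r13_95_0 ⟨by norm_num, c⟩
  have s : St _ β _ _ (3534 * 32) _ _ _ _ _ _ _ _ := s.ru g okX13_145 p13_95_1
  have s : St _ β _ _ (3607 * 32) _ _ _ _ _ _ _ _ := s.ru g okX13_145 p13_96_0
  have s : St _ β _ _ (3649 * 32) _ _ _ _ _ _ _ _ := s.ru g okX13_145 p13_97_0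
  have s : St _ β _ _ (3689 * 32) _ _ _ _ _ _ _ _ := s.ru g okX13_145 p13_98_0
  have s : St _ β _ _ (3718 * 32) _ _ _ _ _ _ _ _ := s.ru g okX13_145 p13_99_0
  have s : St _ β _ _ (3725 * 32) _ _ _ _ _ _ _ _ := s.ru g okX13_145 p13_100_0
  have s : St _ β _ _ (3725 * 32) _ _ _ _ _ _ _ _ := s.rnz (i := 119200) g r13_100_5 ⟨by norm_num, c⟩
  have s : St _ β _ _ (3725 * 32) _ _ _ _ _ _ _ _ := s.rnz (i := 119200) g r13_100_6 ⟨by norm_num, c⟩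
  have s : St _ β _ _ (3725 * 32) _ _ _ _ _ _ _ _ := s.rnz (i := 119200) g r13_100_7 ⟨by norm_num, c⟩
  have s : St _ β _ _ (3725 * 32) _ _ _ _ _ _ _ _ := s.rnz (i := 119200) g r13_100_8 ⟨by norm_num, c⟩
  have s : St _ β _ _ (3725 * 32) _ _ _ _ _ _ _ _ := s.rnz (i := 119200) g r13_100_9 ⟨by norm_num, c⟩
  have s : St _ β _ _ (3725 * 32) _ _ _ _ _ _ _ _ := s.rnz (i := 119200) g r13_101_0 ⟨by norm_num, c⟩
  have s : St _ β _ _ (3789 * 32) _ _ _ _ _ _ _ _ := s.ru g okX13_154 p13_101_1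
  have s : St _ β _ _ (3852 * 32) _ _ _ _ _ _ _ _ := s.ru g okX13_154 p13_102_0
  have s : St _ β _ _ (3895 * 32) _ _ _ _ _ _ _ _ := s.ru g okX13_154 p13_103_0
  have s : St _ β _ _ (3924 * 32) _ _ _ _ _ _ _ _ := s.ru g okX13_154 p13_104_0
  have s : St _ β _ _ (3964 * 32) _ _ _ _ _ _ _ _ := s.ru g okX13_154 p13_105_0
  have s : St _ β _ _ (3975 * 32) _ _ _ _ _ _ _ _ := s.ru g okX13_154 p13_106_0
  have s : St _ β _ _ (3975 * 32) _ _ _ _ _ _ _ _ := s.rnz (i := 127200) g r13_106_5 ⟨by norm_num, c⟩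
  have s : St _ β _ _ (3975 * 32) _ _ _ _ _ _ _ _ := s.rnz (i := 127200) g r13_106_6 ⟨by norm_num, c⟩
  have s : St _ β _ _ (3975 * 32) _ _ _ _ _ _ _ _ := s.rnz (i := 127200) g r13_106_7 ⟨by norm_num, c⟩
  have s : St _ β _ _ (3975 * 32) _ _ _ _ _ _ _ _ := s.rnz (i := 127200) g r13_106_8 ⟨by norm_num, c⟩
  have s : St _ β _ _ (3975 * 32) _ _ _ _ _ _ _ _ := s.rnz (i := 127200) g r13_106_9 ⟨by norm_num, c⟩
  have s : St _ β _ _ (3975 * 32) _ _ _ _ _ _ _ _ := s.rnz (i := 127200) g r13_107_0 ⟨by norm_num, c⟩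
  have s : St _ β _ _ (3975 * 32) _ _ _ _ _ _ _ _ := s.rnz (i := 127200) g r13_107_1 ⟨by norm_num, c⟩
  have s : St _ β _ _ (3975 * 32) _ _ _ _ _ _ _ _ := s.rnz (i := 127200) g r13_107_2 ⟨by norm_num, c⟩
  have s : St _ β _ _ (3975 * 32) _ _ _ _ _ _ _ _ := s.rnz (i := 127200) g r13_107_3 ⟨by norm_num, c⟩
  have s : St _ β _ _ (3975 * 32) _ _ _ _ _ _ _ _ := s.rnz (i := 127200) g r13_107_4 ⟨by norm_num, c⟩
  have s : St _ β _ _ (3975 * 32) _ _ _ _ _ _ _ _ := s.rnz (i := 127200) g r13_107_5 ⟨by norm_num, c⟩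
  have s : St _ β _ _ (3975 * 32) _ _ _ _ _ _ _ _ := s.rnz (i := 127200) g r13_107_6 ⟨by norm_num, c⟩
  have s : St _ β _ _ (3975 * 32) _ _ _ _ _ _ _ _ := s.rnz (i := 127200) g r13_108_0 ⟨by norm_num, c⟩
  have s : St _ β _ _ (3975 * 32) _ _ _ _ _ _ _ _ := s.rnz (i := 127200) g r13_108_1 ⟨by norm_num, c⟩
  have s : St _ β _ _ (3975 * 32) _ _ _ _ _ _ _ _ := s.rnz (i := 127200) g r13_108_2 ⟨by norm_num, c⟩
  have s : St _ β _ _ (4015 * 32) _ _ _ _ _ _ _ _ := s.ru g okX13_177 p13_108_3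
  have s : St _ β _ _ (4060 * 32) _ _ _ _ _ _ _ _ := s.ru g okX13_177 p13_109_0
  have s : St _ β _ _ (4091 * 32) _ _ _ _ _ _ _ _ := s.ru g okX13_177 p13_110_0
  have s : St _ β _ _ (4093 * 32) _ _ _ _ _ _ _ _ := s.ru g okX13_177 p13_111_0
  have s : St _ β _ _ (4093 * 32) _ _ _ _ _ _ _ _ := s.rnz (i := 130976) g r13_111_1 ⟨by norm_num, c⟩
  have s : St _ β _ _ (4093 * 32) _ _ _ _ _ _ _ _ := s.rnz (i := 130976) g r13_111_2 ⟨by norm_num, c⟩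
  have s : St _ β _ _ (4093 * 32) _ _ _ _ _ _ _ _ := s.rnz (i := 130976) g r13_111_3 ⟨by norm_num, c⟩
  have s : St _ β _ _ (4093 * 32) _ _ _ _ _ _ _ _ := s.rnz (i := 130976) g r13_111_4 ⟨by norm_num, c⟩
  have s : St _ β _ H13_1 (689 * 32) _ _ _ _ _ _ _ _ := s.cpy (i := 130976) cp13_1
  have s : St _ β _ _ (739 * 32) _ _ _ _ _ _ _ _ := s.ru g okX13_182 p13_112_0
  have s : St _ β _ _ (742 * 32) _ _ _ _ _ _ _ _ := s.ru g okX13_182 p13_113_0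
  have s : St _ β _ _ (742 * 32) _ _ _ _ _ _ _ _ := s.rnz (i := 23744) g r13_113_2 ⟨by norm_num, c⟩
  have s : St _ β _ _ (742 * 32) _ _ _ _ _ _ _ _ := s.rnz (i := 23744) g r13_113_3 ⟨by norm_num, c⟩
  have s : St _ β _ _ (786 * 32) _ _ _ _ _ _ _ _ := s.ru g okX13_184 p13_113_4
  have s : St _ β _ _ (835 * 32) _ _ _ _ _ _ _ _ := s.ru g okX13_184 p13_114_0
  have s : St _ β _ _ (845 * 32) _ _ _ _ _ _ _ _ := s.ru g okX13_184 p13_115_0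
  have s : St _ β _ _ (845 * 32) _ _ _ _ _ _ _ _ := s.rnz (i := 27040) g r13_115_5 ⟨by norm_num, c⟩
  have s : St _ β _ _ (845 * 32) _ _ _ _ _ _ _ _ := s.rnz (i := 27040) g r13_115_6 ⟨by norm_num, c⟩
  have s : St _ β _ _ (885 * 32) _ _ _ _ _ _ _ _ := s.ru g okX13_187 p13_115_7
  have s : St _ β _ _ (957 * 32) _ _ _ _ _ _ _ _ := s.ru g okX13_187 p13_116_0
  have s : St _ β _ _ (1018 * 32) _ _ _ _ _ _ _ _ := s.ru g okX13_187 p13_117_0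
  have s : St _ β _ _ (1072 * 32) _ _ _ _ _ _ _ _ := s.ru g okX13_187 p13_118_0
  have s : St _ β _ _ (1113 * 32) _ _ _ _ _ _ _ _ := s.ru g okX13_187 p13_119_0
  have s : St _ β _ _ (1153 * 32) _ _ _ _ _ _ _ _ := s.ru g okX13_187 p13_120_0
  have s : St _ β _ _ (1184 * 32) _ _ _ _ _ _ _ _ := s.ru g okX13_187 p13_121_0
  have s : St _ β _ _ (1184 * 32) _ _ _ _ _ _ _ _ := s.rnz (i := 37888) g r13_121_9 ⟨by norm_num, c⟩
  have s : St _ β _ _ (1184 * 32) _ _ _ _ _ _ _ _ := s.rnz (i := 37888) g r13_121_10 ⟨by norm_num, c⟩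
  have s : St _ β _ _ (1184 * 32) _ _ _ _ _ _ _ _ := s.rnz (i := 37888) g r13_122_0 ⟨by norm_num, c⟩
  have s : St _ β _ _ (1184 * 32) _ _ _ _ _ _ _ _ := s.rnz (i := 37888) g r13_122_1 ⟨by norm_num, c⟩
  have s : St _ β _ _ (1184 * 32) _ _ _ _ _ _ _ _ := s.rnz (i := 37888) g r13_122_2 ⟨by norm_num, c⟩
  have s : St _ β _ _ (1184 * 32) _ _ _ _ _ _ _ _ := s.rnz (i := 37888) g r13_122_3 ⟨by norm_num, c⟩
  have s : St _ β _ _ (1184 * 32) _ _ _ _ _ _ _ _ := s.rnz (i := 37888) g r13_122_4 ⟨by norm_num, c⟩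
  have s : St _ β _ _ (1184 * 32) _ _ _ _ _ _ _ _ := s.rnz (i := 37888) g r13_122_5 ⟨by norm_num, c⟩
  have s : St _ β _ _ (1184 * 32) _ _ _ _ _ _ _ _ := s.rnz (i := 37888) g r13_122_6 ⟨by norm_num, c⟩
  have s : St _ β _ _ (1184 * 32) _ _ _ _ _ _ _ _ := s.rnz (i := 37888) g r13_123_0 ⟨by norm_num, c⟩
  have s : St _ β _ _ (1252 * 32) _ _ _ _ _ _ _ _ := s.ru g okX13_202 p13_123_1
  have s : St _ β _ _ (1289 * 32) _ _ _ _ _ _ _ _ := s.ru g okX13_202 p13_124_0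
  have s : St _ β _ _ (1299 * 32) _ _ _ _ _ _ _ _ := s.ru g okX13_202 p13_125_0
  have s : St _ β _ _ (1299 * 32) _ _ _ _ _ _ _ _ := s.rnz (i := 41568) g r13_125_4 ⟨by norm_num, c⟩
  have s : St _ β _ _ (1299 * 32) _ _ _ _ _ _ _ _ := s.rnz (i := 41568) g r13_125_5 ⟨by norm_num, c⟩
  have s : St _ β _ _ (1299 * 32) _ _ _ _ _ _ _ _ := s.rnz (i := 41568) g r13_125_6 ⟨by norm_num, c⟩
  have s : St _ β _ _ (1323 * 32) _ _ _ _ _ _ _ _ := s.ru g okX13_208 p13_125_7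
  have s : St _ β _ _ (1393 * 32) _ _ _ _ _ _ _ _ := s.ru g okX13_208 p13_126_0
  have s : St _ β _ _ (1452 * 32) _ _ _ _ _ _ _ _ := s.ru g okX13_208 p13_127_0
  have s : St _ β _ _ (1504 * 32) _ _ _ _ _ _ _ _ := s.ru g okX13_208 p13_128_0
  have s : St _ β _ _ (1545 * 32) _ _ _ _ _ _ _ _ := s.ru g okX13_208 p13_129_0
  have s : St _ β _ _ (1573 * 32) _ _ _ _ _ _ _ _ := s.ru g okX13_208 p13_130_0
  have s : St _ β _ _ (1573 * 32) _ _ _ _ _ _ _ _ := s.rnz (i := 50336) g r13_130_8 ⟨by norm_num, c⟩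
  have s : St _ β _ _ (1573 * 32) _ _ _ _ _ _ _ _ := s.rnz (i := 50336) g r13_130_9 ⟨by norm_num, c⟩
  have s : St _ β _ _ (1573 * 32) _ _ _ _ _ _ _ _ := s.rnz (i := 50336) g r13_130_10 ⟨by norm_num, c⟩
  have s : St _ β _ _ (1573 * 32) _ _ _ _ _ _ _ _ := s.rnz (i := 50336) g r13_130_11 ⟨by norm_num, c⟩
  have s : St _ β _ _ (1573 * 32) _ _ _ _ _ _ _ _ := s.rnz (i := 50336) g r13_131_0 ⟨by norm_num, c⟩
  have s : St _ β _ _ (1573 * 32) _ _ _ _ _ _ _ _ := s.rnz (i := 50336) g r13_131_1 ⟨by norm_num, c⟩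
  have s : St _ β _ _ (1573 * 32) _ _ _ _ _ _ _ _ := s.rnz (i := 50336) g r13_131_2 ⟨by norm_num, c⟩
  have s : St _ β _ _ (1573 * 32) _ _ _ _ _ _ _ _ := s.rnz (i := 50336) g r13_131_3 ⟨by norm_num, c⟩
  have s : St _ β _ _ (1573 * 32) _ _ _ _ _ _ _ _ := s.rnz (i := 50336) g r13_131_4 ⟨by norm_num, c⟩
  have s : St _ β _ _ (1573 * 32) _ _ _ _ _ _ _ _ := s.rnz (i := 50336) g r13_131_5 ⟨by norm_num, c⟩
  have s : St _ β _ _ (1585 * 32) _ _ _ _ _ _ _ _ := s.ru g okX13_222 p13_131_6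
  have s : St _ β _ _ (1666 * 32) _ _ _ _ _ _ _ _ := s.ru g okX13_222 p13_132_0
  have s : St _ β _ _ (1735 * 32) _ _ _ _ _ _ _ _ := s.ru g okX13_222 p13_133_0
  have s : St _ β _ _ (1787 * 32) _ _ _ _ _ _ _ _ := s.ru g okX13_222 p13_134_0
  have s : St _ β _ _ (1840 * 32) _ _ _ _ _ _ _ _ := s.ru g okX13_222 p13_135_0
  have s : St _ β _ _ (1879 * 32) _ _ _ _ _ _ _ _ := s.ru g okX13_222 p13_136_0
  have s : St _ β _ _ (1879 * 32) _ _ _ _ _ _ _ _ := s.rnz (i := 60128) g r13_136_10 ⟨by norm_num, c⟩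
  have s : St _ β _ _ (1879 * 32) _ _ _ _ _ _ _ _ := s.rnz (i := 60128) g r13_136_11 ⟨by norm_num, c⟩
  have s : St _ β _ _ (1879 * 32) _ _ _ _ _ _ _ _ := s.rnz (i := 60128) g r13_137_0 ⟨by norm_num, c⟩
  have s : St _ β _ _ (1879 * 32) _ _ _ _ _ _ _ _ := s.rnz (i := 60128) g r13_137_1 ⟨by norm_num, c⟩
  have s : St _ β _ _ (1879 * 32) _ _ _ _ _ _ _ _ := s.rnz (i := 60128) g r13_137_2 ⟨by norm_num, c⟩
  have s : St _ β _ _ (1879 * 32) _ _ _ _ _ _ _ _ := s.rnz (i := 60128) g r13_137_3 ⟨by norm_num, c⟩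
  have s : St _ β _ _ (1879 * 32) _ _ _ _ _ _ _ _ := s.rnz (i := 60128) g r13_137_4 ⟨by norm_num, c⟩
  have s : St _ β _ _ (1879 * 32) _ _ _ _ _ _ _ _ := s.rnz (i := 60128) g r13_137_5 ⟨by norm_num, c⟩
  have s : St _ β _ _ (1879 * 32) _ _ _ _ _ _ _ _ := s.rnz (i := 60128) g r13_138_0 ⟨by norm_num, c⟩
  have s : St _ β _ _ (1879 * 32) _ _ _ _ _ _ _ _ := s.rnz (i := 60128) g r13_138_1 ⟨by norm_num, c⟩
  have s : St _ β _ _ (1879 * 32) _ _ _ _ _ _ _ _ := s.rnz (i := 60128) g r13_138_2 ⟨by norm_num, c⟩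
  have s : St _ β _ _ (1879 * 32) _ _ _ _ _ _ _ _ := s.rnz (i := 60128) g r13_138_3 ⟨by norm_num, c⟩
  have s : St _ β _ _ (1879 * 32) _ _ _ _ _ _ _ _ := s.rnz (i := 60128) g r13_138_4 ⟨by norm_num, c⟩
  have s : St _ β _ _ (1894 * 32) _ _ _ _ _ _ _ _ := s.ru g okX13_246 p13_138_5
  have s : St _ β _ _ (1974 * 32) _ _ _ _ _ _ _ _ := s.ru g okX13_246 p13_139_0
  have s : St _ β _ _ (2006 * 32) _ _ _ _ _ _ _ _ := s.ru g okX13_246 p13_140_0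
  have s : St _ β _ _ (2006 * 32) _ _ _ _ _ _ _ _ := s.rnz (i := 64192) g r13_140_9 ⟨by norm_num, c⟩
  have s : St _ β _ _ (2006 * 32) _ _ _ _ _ _ _ _ := s.rnz (i := 64192) g r13_140_10 ⟨by norm_num, c⟩
  have s : St _ β _ _ (2006 * 32) _ _ _ _ _ _ _ _ := s.rnz (i := 64192) g r13_141_0 ⟨by norm_num, c⟩
  have s : St _ β _ _ (2006 * 32) _ _ _ _ _ _ _ _ := s.rnz (i := 64192) g r13_141_1 ⟨by norm_num, c⟩
  have s : St _ β _ _ (2072 * 32) _ _ _ _ _ _ _ _ := s.ru g okX13_255 p13_141_2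
  have s : St _ β _ _ (2133 * 32) _ _ _ _ _ _ _ _ := s.ru g okX13_255 p13_142_0
  have s : St _ β _ _ (2173 * 32) _ _ _ _ _ _ _ _ := s.ru g okX13_255 p13_143_0
  have s : St _ β _ _ (2173 * 32) _ _ _ _ _ _ _ _ := s.rnz (i := 69536) g r13_143_10 ⟨by norm_num, c⟩
  have s : St _ β _ _ (2173 * 32) _ _ _ _ _ _ _ _ := s.rnz (i := 69536) g r13_143_11 ⟨by norm_num, c⟩
  have s : St _ β _ _ (2173 * 32) _ _ _ _ _ _ _ _ := s.rnz (i := 69536) g r13_143_12 ⟨by norm_num, c⟩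
  have s : St _ β _ _ (2173 * 32) _ _ _ _ _ _ _ _ := s.rnz (i := 69536) g r13_144_0 ⟨by norm_num, c⟩
  have s : St _ β _ _ (2173 * 32) _ _ _ _ _ _ _ _ := s.rnz (i := 69536) g r13_144_1 ⟨by norm_num, c⟩
  have s : St _ β _ _ (2173 * 32) _ _ _ _ _ _ _ _ := s.rnz (i := 69536) g r13_144_2 ⟨by norm_num, c⟩
  have s : St _ β _ _ (2173 * 32) _ _ _ _ _ _ _ _ := s.rnz (i := 69536) g r13_144_3 ⟨by norm_num, c⟩
  have s : St _ β _ _ (2173 * 32) _ _ _ _ _ _ _ _ := s.rnz (i := 69536) g r13_144_4 ⟨by norm_num, c⟩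
  have s : St _ β _ _ (2201 * 32) _ _ _ _ _ _ _ _ := s.ru g okX13_268 p13_144_5
  have s : St _ β _ _ (2268 * 32) _ _ _ _ _ _ _ _ := s.ru g okX13_268 p13_145_0
  have s : St _ β _ _ (2268 * 32) _ _ _ _ _ _ _ _ := s.rnz (i := 72576) g r13_145_14 ⟨by norm_num, c⟩
  have s : St _ β _ _ (2268 * 32) _ _ _ _ _ _ _ _ := s.rnz (i := 72576) g r13_146_0 ⟨by norm_num, c⟩
  have s : St _ β _ _ (2268 * 32) _ _ _ _ _ _ _ _ := s.rnz (i := 72576) g r13_146_1 ⟨by norm_num, c⟩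
  have s : St _ β _ _ (2268 * 32) _ _ _ _ _ _ _ _ := s.rnz (i := 72576) g r13_146_2 ⟨by norm_num, c⟩
  have s : St _ β _ _ (2268 * 32) _ _ _ _ _ _ _ _ := s.rnz (i := 72576) g r13_146_3 ⟨by norm_num, c⟩
  have s : St _ β _ _ (2268 * 32) _ _ _ _ _ _ _ _ := s.rnz (i := 72576) g r13_146_4 ⟨by norm_num, c⟩
  have s : St _ β _ _ (2279 * 32) _ _ _ _ _ _ _ _ := s.ru g okX13_280 p13_146_5
  have s : St _ β _ _ (2335 * 32) _ _ _ _ _ _ _ _ := s.ru g okX13_280 p13_147_0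
  have s : St _ β _ _ (2335 * 32) _ _ _ _ _ _ _ _ := s.rnz (i := 74720) g r13_147_11 ⟨by norm_num, c⟩
  have s : St _ β _ _ (2335 * 32) _ _ _ _ _ _ _ _ := s.rnz (i := 74720) g r13_148_0 ⟨by norm_num, c⟩
  have s : St _ β _ _ (2335 * 32) _ _ _ _ _ _ _ _ := s.rnz (i := 74720) g r13_148_1 ⟨by norm_num, c⟩
  have s : St _ β _ _ (2371 * 32) _ _ _ _ _ _ _ _ := s.ru g okX13_287 p13_148_2
  have s : St _ β _ _ (2384 * 32) _ _ _ _ _ _ _ _ := s.ru g okX13_287 p13_149_0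
  have s : St _ β _ _ (2384 * 32) _ _ _ _ _ _ _ _ := s.rnz (i := 76288) g r13_149_3 ⟨by norm_num, c⟩
  have s : St _ β _ _ (2384 * 32) _ _ _ _ _ _ _ _ := s.rnz (i := 76288) g r13_149_4 ⟨by norm_num, c⟩
  have s : St _ β _ _ (2384 * 32) _ _ _ _ _ _ _ _ := s.rnz (i := 76288) g r13_149_5 ⟨by norm_num, c⟩
  have s : St _ β _ _ (2384 * 32) _ _ _ _ _ _ _ _ := s.rnz (i := 76288) g r13_149_6 ⟨by norm_num, c⟩
  have s : St _ β _ _ (2410 * 32) _ _ _ _ _ _ _ _ := s.ru g okX13_295 p13_149_7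
  have s : St _ β _ _ (2426 * 32) _ _ _ _ _ _ _ _ := s.ru g okX13_295 p13_150_0
  have s : St _ β _ _ (2426 * 32) _ _ _ _ _ _ _ _ := s.rnz (i := 77632) g r13_150_3 ⟨by norm_num, c⟩
  have s : St _ β _ _ (2426 * 32) _ _ _ _ _ _ _ _ := s.rnz (i := 77632) g r13_150_4 ⟨by norm_num, c⟩
  have s : St _ β _ _ (2426 * 32) _ _ _ _ _ _ _ _ := s.rnz (i := 77632) g r13_150_5 ⟨by norm_num, c⟩
  have s : St _ β _ _ (2426 * 32) _ _ _ _ _ _ _ _ := s.rnz (i := 77632) g r13_150_6 ⟨by norm_num, c⟩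
  have s : St _ β _ _ (2440 * 32) _ _ _ _ _ _ _ _ := s.ru g okX13_304 p13_150_7
  have s : St _ β _ _ (2455 * 32) _ _ _ _ _ _ _ _ := s.ru g okX13_304 p13_151_0
  have s : St _ β _ _ (2455 * 32) _ _ _ _ _ _ _ _ := s.rnz (i := 78560) g r13_151_3 ⟨by norm_num, c⟩
  have s : St _ β _ _ (2455 * 32) _ _ _ _ _ _ _ _ := s.rnz (i := 78560) g r13_151_4 ⟨by norm_num, c⟩
  have s : St _ β _ _ (2475 * 32) _ _ _ _ _ _ _ _ := s.ru g okX13_308 p13_151_5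
  have s : St _ β _ _ (2475 * 32) _ _ _ _ _ _ _ _ := s.rnz (i := 79200) g r13_151_9 ⟨by norm_num, c⟩
  have s : St _ β _ _ (2475 * 32) _ _ _ _ _ _ _ _ := s.rnz (i := 79200) g r13_151_10 ⟨by norm_num, c⟩
  have s : St _ β _ _ (2475 * 32) _ _ _ _ _ _ _ _ := s.rnz (i := 79200) g r13_152_0 ⟨by norm_num, c⟩
  have s : St _ β _ _ (2484 * 32) _ _ _ _ _ _ _ _ := s.ru g okX13_313 p13_152_1
  have s : St _ β _ _ (2484 * 32) _ _ _ _ _ _ _ _ := s.rnz (i := 79488) g r13_152_3 ⟨by norm_num, c⟩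
  have s : St _ β _ _ (2492 * 32) _ _ _ _ _ _ _ _ := s.ru g okX13_315 p13_152_4
  have s : St _ β _ _ (2492 * 32) _ _ _ _ _ _ _ _ := s.rnz (i := 79744) g r13_152_5 ⟨by norm_num, c⟩
  have s : St _ β _ _ (2493 * 32) _ _ _ _ _ _ _ _ := s.ru g okX13_317 p13_152_6
  have s : St _ β _ _ (2493 * 32) _ _ _ _ _ _ _ _ := s.rnz (i := 79776) g r13_152_7 ⟨by norm_num, c⟩
  have s : St _ β _ _ (2494 * 32) _ _ _ _ _ _ _ _ := s.ru g okX13_317 p13_152_8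
  have s : St _ β _ _ (2494 * 32) _ _ _ _ _ _ _ _ := s.rnz (i := 79808) g r13_152_9 ⟨by norm_num, c⟩
  have s : St _ β _ _ (2495 * 32) _ _ _ _ _ _ _ _ := s.ru g okX13_317 p13_152_10
  have s : St _ β _ _ (2495 * 32) _ _ _ _ _ _ _ _ := s.rnz (i := 79840) g r13_152_11 ⟨by norm_num, c⟩
  have s : St _ β _ _ (2499 * 32) _ _ _ _ _ _ _ _ := s.ru g okX13_317 p13_152_12
  have s : St _ β _ _ (2499 * 32) _ _ _ _ _ _ _ _ := s.rnz (i := 79968) g r13_152_13 ⟨by norm_num, c⟩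
  have s : St _ β _ _ (2501 * 32) _ _ _ _ _ _ _ _ := s.ru g okX13_321 p13_153_0
  have s : St _ β _ _ (2501 * 32) _ _ _ _ _ _ _ _ := s.rnz (i := 80032) g r13_153_1 ⟨by norm_num, c⟩
  have s : St _ β _ _ (2505 * 32) _ _ _ _ _ _ _ _ := s.ru g okX13_321 p13_153_2
  have s : St _ β _ _ (2505 * 32) _ _ _ _ _ _ _ _ := s.rnz (i := 80160) g r13_153_3 ⟨by norm_num, c⟩
  have s : St _ β _ _ (2505 * 32) _ _ _ _ _ _ _ _ := s.rnz (i := 80160) g r13_153_4 ⟨by norm_num, c⟩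
  have s : St _ β _ _ (2506 * 32) _ _ _ _ _ _ _ _ := s.ru g okX13_323 p13_153_5
  have s : St _ β _ _ (2506 * 32) _ _ _ _ _ _ _ _ := s.rnz (i := 80192) g r13_153_6 ⟨by norm_num, c⟩
  have s : St _ β _ _ (2513 * 32) _ _ _ _ _ _ _ _ := s.ru g okX13_323 p13_153_7
  have s : St _ β _ _ (2513 * 32) _ _ _ _ _ _ _ _ := s.rnz (i := 80416) g r13_153_8 ⟨by norm_num, c⟩
  have s : St _ β _ _ (2513 * 32) _ _ _ _ _ _ _ _ := s.rnz (i := 80416) g r13_153_9 ⟨by norm_num, c⟩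
  have s : St _ β _ _ (2513 * 32) _ _ _ _ _ _ _ _ := s.rnz (i := 80416) g r13_154_0 ⟨by norm_num, c⟩
  have s : St _ β _ _ (2514 * 32) _ _ _ _ _ _ _ _ := s.ru g okX13_328 p13_154_1
  have s : St _ β _ _ (2514 * 32) _ _ _ _ _ _ _ _ := s.rnz (i := 80448) g r13_154_2 ⟨by norm_num, c⟩
  have s : St _ β _ _ (2520 * 32) _ _ _ _ _ _ _ _ := s.ru g okX13_328 p13_154_3
  have s : St _ β _ _ (2520 * 32) _ _ _ _ _ _ _ _ := s.rnz (i := 80640) g r13_154_4 ⟨by norm_num, c⟩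
  have s : St _ β _ _ (2520 * 32) _ _ _ _ _ _ _ _ := s.rnz (i := 80640) g r13_154_5 ⟨by norm_num, c⟩
  have s : St _ β _ _ (2520 * 32) _ _ _ _ _ _ _ _ := s.rnz (i := 80640) g r13_154_6 ⟨by norm_num, c⟩
  have s : St _ β _ _ (2521 * 32) _ _ _ _ _ _ _ _ := s.ru g okX13_333 p13_154_7
  have s : St _ β _ _ (2521 * 32) _ _ _ _ _ _ _ _ := s.rnz (i := 80672) g r13_154_8 ⟨by norm_num, c⟩
  have s : St _ β _ _ (2524 * 32) _ _ _ _ _ _ _ _ := s.ru g okX13_333 p13_154_9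
  have s : St _ β _ _ (2524 * 32) _ _ _ _ _ _ _ _ := s.rnz (i := 80768) g r13_154_10 ⟨by norm_num, c⟩
  have s : St _ β _ _ (2524 * 32) _ _ _ _ _ _ _ _ := s.rnz (i := 80768) g r13_155_0 ⟨by norm_num, c⟩
  have s : St _ β _ _ (2525 * 32) _ _ _ _ _ _ _ _ := s.ru g okX13_337 p13_155_1
  have s : St _ β _ _ (2525 * 32) _ _ _ _ _ _ _ _ := s.rnz (i := 80800) g r13_155_2 ⟨by norm_num, c⟩
  have s : St _ β _ _ (2529 * 32) _ _ _ _ _ _ _ _ := s.ru g okX13_337 p13_155_3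
  have s : St _ β _ _ (2529 * 32) _ _ _ _ _ _ _ _ := s.rnz (i := 80928) g r13_155_4 ⟨by norm_num, c⟩
  have s : St _ β _ _ (2529 * 32) _ _ _ _ _ _ _ _ := s.rnz (i := 80928) g r13_155_5 ⟨by norm_num, c⟩
  have s : St _ β _ _ (2529 * 32) _ _ _ _ _ _ _ _ := s.rnz (i := 80928) g r13_155_6 ⟨by norm_num, c⟩
  have s : St _ β _ _ (2529 * 32) _ _ _ _ _ _ _ _ := s.rnz (i := 80928) g r13_155_7 ⟨by norm_num, c⟩
  exact s.out g (by decide +kernel)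

theorem many : Many2 ⟨FA, FB, FT, 63721, 10041, 39268, geo_ok⟩ 10041 9768 :=
  ((seg1.app seg2 (by norm_num)).app seg13 (by norm_num)).many (by norm_num)

end

end Pool.Agent.MP_1037db_co.Q.D
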